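import Pool.Agent.H84.SF.Fin

/-!
# MP_70ba79_ag, board sfc_modules: row FLZ (finitely many families of curves on a surface)
-/

set_option autoImplicit false

namespace Pool.Agent.H64.SF

open MvPolynomial SC
open Pool.Agent.H27.LV (ge deg poleOrder canDeg DegreeBound)
open Pool.Agent.H84.SM (cr dt dp)
open Pool.Agent.H84.SL (pd)
open Pool.Agent.H3.SF (Itg Bb BB Hm eu grd hes Sfc Crd Crf Prm)
open Pool.Agent.H17.SD (Prj Smo HRel)
open Pool.Agent.H84.SF

/-- aeval commutes with a map of the coefficients -/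
theorem map_aeval_poly {k A B τ : Type} [Field k] [CommRing A] [CommRing B] [Algebra k A]
    [Algebra k B] (f : A →ₐ[k] B) (U : τ → Polynomial A) (G : MvPolynomial τ k) :
    (aeval U G).map (f : A →+* B) = aeval (fun i => (U i).map (f : A →+* B)) G := by
  have h := MvPolynomial.comp_aeval_apply (B := Polynomial B) U (Polynomial.mapAlgHom f) G
  exact h

/-- linear combinations commute with a map of the coefficients -/
theorem map_lin {k A B τ : Type} [Field k] [CommRing A] [CommRing B] [Algebra k A]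
    [Algebra k B] [Fintype τ] (f : A →ₐ[k] B) (c : Fin 3 → τ → k) (U : τ → Polynomial A)
    (l : Fin 3) : (lin c U l).map (f : A →+* B) = lin c (fun i => (U i).map (f : A →+* B)) l := by
  unfold lin
  have h : Polynomial.mapAlgHom f (∑ s, c l s • U s) =
      ∑ s, c l s • Polynomial.mapAlgHom f (U s) := by
    rw [map_sum]
    exact Finset.sum_congr rfl fun s _ => map_smul _ _ _
  exact h

section Fam

variable (k σ : Type) [Field k] (e : ℕ)

/-- the ring of coefficients -/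
abbrev RR : Type := MvPolynomial (σ × Fin (e + 1)) k

/-- the generic polynomials -/
noncomputable def UU (i : σ) : Polynomial (RR k σ e) :=
  ∑ j : Fin (e + 1), Polynomial.monomial (j : ℕ) (X (i, j))

theorem UU_coeff (i : σ) (j : Fin (e + 1)) : (UU k σ e i).coeff (j : ℕ) = X (i, j) := by
  unfold UU
  rw [Polynomial.finsetSum_coeff, Finset.sum_eq_single j]
  · rw [Polynomial.coeff_monomial, if_pos rfl]
  · intro b _ hb
    rw [Polynomial.coeff_monomial, if_neg]
    exact fun h => hb (Fin.ext h)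
  · intro h
    exact absurd (Finset.mem_univ _) h

theorem UU_coeff_ge (i : σ) (n : ℕ) (hn : e < n) : (UU k σ e i).coeff n = 0 := by
  unfold UU
  rw [Polynomial.finsetSum_coeff]
  refine Finset.sum_eq_zero fun j _ => ?_
  rw [Polynomial.coeff_monomial, if_neg]
  have := j.2
  omega

theorem UU_natDegree (i : σ) : (UU k σ e i).natDegree ≤ e :=
  Polynomial.natDegree_le_iff_coeff_eq_zero.2 fun n hn => UU_coeff_ge k σ e i n hn

variable {k σ}

/-- the ideal of the family -/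
noncomputable def II {F : Type} [Field F] [Algebra k F] (Y : σ → F) (a : ℕ)
    (G : MvPolynomial σ k) : Ideal (RR k σ e) :=
  Ideal.span ({z | ∃ j : ℕ, j ≠ a ∧ z = (aeval (UU k σ e) G).coeff j} ∪
    {z | ∃ (f : MvPolynomial σ k) (j : ℕ), aeval Y f = 0 ∧ z = (aeval (UU k σ e) f).coeff j})

end Fam

theorem prime_case (hGLZ : T_GLZ) (k F σ : Type) [Field k] [IsAlgClosed k] [CharZero k] [Field F]
    [Algebra k F] [Fintype σ] (Y : σ → F) (u : Fin 3 → F) (θ : F)
    (dd : Fin 3 → Derivation k F F) (J : MvPolynomial (Fin 3) k) (δ j0 c0 : ℕ)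
    (c : Fin 3 → σ → k) (hS : SrD Y u θ dd J δ j0 c0 c) (m : ℕ) (GP : MvPolynomial σ k)
    (hm : j0 + 4 ≤ m) (hC : CvD Y u dd m GP) (e a : ℕ) (he : 1 ≤ e)
    (q : Ideal (RR k σ e)) (hq : q.IsPrime) (hI : II e Y a GP ≤ q) :
    ∃ (N : ℕ) (Ψ : MvPolynomial (Fin 3) k), Ψ ≠ 0 ∧ Ψ.IsHomogeneous N ∧
      ((aeval (UU k σ e) GP).coeff a ∉ q → (∃ i, (UU k σ e i).coeff e ∉ q) →
        (∃ i, (UU k σ e i).coeff 0 ∉ q) →
          ∀ j, (aeval (lin c (UU k σ e)) Ψ).coeff j ∈ q) := by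
  by_cases hc : (aeval (UU k σ e) GP).coeff a ∉ q ∧ (∃ i, (UU k σ e i).coeff e ∉ q) ∧
        (∃ i, (UU k σ e i).coeff 0 ∉ q)
  · obtain ⟨h1, ⟨i1, h2⟩, ⟨i2, h3⟩⟩ := hc
    let L : Type := FractionRing (RR k σ e ⧸ q)
    let ρ : RR k σ e →ₐ[k] L :=
      (IsScalarTower.toAlgHom k (RR k σ e ⧸ q) L).comp (Ideal.Quotient.mkₐ k q)
    have hker : ∀ z, ρ z = 0 ↔ z ∈ q := by
      intro z
      have e1 : ρ z = algebraMap (RR k σ e ⧸ q) L (Ideal.Quotient.mk q z) := rfl
      rw [e1, ← map_zero (algebraMap (RR k σ e ⧸ q) L),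
        (IsFractionRing.injective (RR k σ e ⧸ q) L).eq_iff, Ideal.Quotient.eq_zero_iff_mem]
    have hcoef : ∀ (A : Polynomial (RR k σ e)) (n : ℕ),
        (A.map (ρ : RR k σ e →+* L)).coeff n = ρ (A.coeff n) := fun A n => by
      rw [Polynomial.coeff_map]; rfl
    have hP : aeval (fun i => (UU k σ e i).map (ρ : RR k σ e →+* L)) GP =
        Polynomial.C (ρ ((aeval (UU k σ e) GP).coeff a)) * Polynomial.X ^ a := by
      rw [← map_aeval_poly ρ (UU k σ e) GP]
      ext n
      rw [hcoef, Polynomial.coeff_C_mul_X_pow]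
      by_cases hn : n = a
      · rw [if_pos hn, hn]
      · rw [if_neg hn, hker]
        exact hI (Ideal.subset_span (Or.inl ⟨n, hn, rfl⟩))
    have hK : ∀ f : MvPolynomial σ k, aeval Y f = 0 →
        aeval (fun i => (UU k σ e i).map (ρ : RR k σ e →+* L)) f = 0 := by
      intro f hf
      rw [← map_aeval_poly ρ (UU k σ e) f]
      ext n
      rw [hcoef, Polynomial.coeff_zero, hker]
      exact hI (Ideal.subset_span (Or.inr ⟨f, n, hf, rfl⟩))
    obtain ⟨N, Ψ, hΨ, hΨN, hΨ0⟩ := hGLZ k F σ Y u θ dd J δ j0 c0 c hS m GP hm hC L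
      (fun i => (UU k σ e i).map (ρ : RR k σ e →+* L)) (ρ ((aeval (UU k σ e) GP).coeff a)) a e
      (fun h => h1 ((hker _).1 h)) he
      (fun i => (Polynomial.natDegree_map_le).trans (UU_natDegree k σ e i))
      ⟨i1, by
        change ((UU k σ e i1).map (ρ : RR k σ e →+* L)).coeff e ≠ 0
        rw [hcoef]; exact fun h => h2 ((hker _).1 h)⟩
      ⟨i2, by
        change ((UU k σ e i2).map (ρ : RR k σ e →+* L)).coeff 0 ≠ 0
        rw [hcoef]; exact fun h => h3 ((hker _).1 h)⟩ hK hP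
    refine ⟨N, Ψ, hΨ, hΨN, fun _ _ _ j => ?_⟩
    have h4 : aeval (fun i => (lin c (UU k σ e) i).map (ρ : RR k σ e →+* L)) Ψ = 0 := by
      rw [← hΨ0]
      exact congrArg (fun z : Fin 3 → Polynomial L => aeval z Ψ)
        (funext fun l => map_lin ρ c (UU k σ e) l)
    rw [← map_aeval_poly ρ (lin c (UU k σ e)) Ψ] at h4
    rw [← hker, ← hcoef, h4, Polynomial.coeff_zero]
  · refine ⟨0, 1, one_ne_zero, MvPolynomial.isHomogeneous_one _ _, fun h1 h2 h3 => ?_⟩
    exact absurd ⟨h1, h2, h3⟩ hc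

theorem pf_FLZ (hGLZ : T_GLZ) : T_FLZ := by
  classical
  intro k F σ _ _ _ _ _ _ Y u θ dd J δ j0 c0 c hS m GP hm hC e a he
  have hfin : (II e Y a GP).minimalPrimes.Finite := Ideal.finite_minimalPrimes_of_isNoetherianRing _ _
  have hpr : ∀ q : Ideal (RR k σ e), ∃ (N : ℕ) (Ψ : MvPolynomial (Fin 3) k), Ψ ≠ 0 ∧
      Ψ.IsHomogeneous N ∧ (q ∈ (II e Y a GP).minimalPrimes →
      ((aeval (UU k σ e) GP).coeff a ∉ q → (∃ i, (UU k σ e i).coeff e ∉ q) →
        (∃ i, (UU k σ e i).coeff 0 ∉ q) →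
          ∀ j, (aeval (lin c (UU k σ e)) Ψ).coeff j ∈ q)) := by
    intro q
    by_cases hq : q ∈ (II e Y a GP).minimalPrimes
    · obtain ⟨N, Ψ, h1, h2, h3⟩ := prime_case hGLZ k F σ Y u θ dd J δ j0 c0 c hS m GP hm hC e a
        he q hq.1.1 hq.1.2
      exact ⟨N, Ψ, h1, h2, fun _ => h3⟩
    · exact ⟨0, 1, one_ne_zero, MvPolynomial.isHomogeneous_one _ _, fun h => absurd h hq⟩
  choose N Ψ hΨ hΨN hΨq using hpr
  refine ⟨∑ q ∈ hfin.toFinset, N q, ∏ q ∈ hfin.toFinset, Ψ q,
    Finset.prod_ne_zero_iff.2 fun q _ => hΨ q,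
    MvPolynomial.IsHomogeneous.prod _ _ _ fun q _ => hΨN q, ?_⟩
  intro p c1 hc hdeg hpe hp0 hK hp
  -- the point
  let ev : RR k σ e →ₐ[k] k := aeval (fun x : σ × Fin (e + 1) => (p x.1).coeff (x.2 : ℕ))
  have hcoef : ∀ (A : Polynomial (RR k σ e)) (n : ℕ),
      (A.map (ev : RR k σ e →+* k)).coeff n = ev (A.coeff n) := fun A n => by
    rw [Polynomial.coeff_map]; rfl
  have hU : ∀ i, (UU k σ e i).map (ev : RR k σ e →+* k) = p i := by
    intro i
    ext n
    rw [hcoef]
    rcases lt_or_ge e n with hn | hn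
    · rw [UU_coeff_ge k σ e i n hn, map_zero, Polynomial.coeff_eq_zero_of_natDegree_lt]
      exact (hdeg i).trans_lt hn
    · have := UU_coeff k σ e i ⟨n, Nat.lt_succ_of_le hn⟩
      change (UU k σ e i).coeff n = _ at this
      rw [this]
      change aeval _ (X _) = _
      rw [aeval_X]
  have hev : ∀ Φ : MvPolynomial σ k, (aeval (UU k σ e) Φ).map (ev : RR k σ e →+* k) =
      aeval p Φ := by
    intro Φ
    rw [map_aeval_poly ev (UU k σ e) Φ]
    exact congrArg (fun z : σ → Polynomial k => aeval z Φ) (funext hU)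
  have hevl : ∀ Φ : MvPolynomial (Fin 3) k,
      (aeval (lin c (UU k σ e)) Φ).map (ev : RR k σ e →+* k) = aeval (lin c p) Φ := by
    intro Φ
    rw [map_aeval_poly ev (lin c (UU k σ e)) Φ]
    refine congrArg (fun z : Fin 3 → Polynomial k => aeval z Φ) (funext fun l => ?_)
    rw [map_lin ev c (UU k σ e) l]
    exact congrArg (fun z : σ → Polynomial k => lin c z l) (funext hU)
  have hprime : (RingHom.ker (ev : RR k σ e →+* k)).IsPrime := RingHom.ker_isPrime _
  have hIle : II e Y a GP ≤ RingHom.ker (ev : RR k σ e →+* k) := by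
    unfold II
    rw [Ideal.span_le]
    rintro z (⟨j, hj, rfl⟩ | ⟨f, j, hf, rfl⟩)
    · change ev ((aeval (UU k σ e) GP).coeff j) = 0
      rw [← hcoef, hev, hp, Polynomial.coeff_C_mul_X_pow, if_neg hj]
    · change ev ((aeval (UU k σ e) f).coeff j) = 0
      rw [← hcoef, hev, hK f hf, Polynomial.coeff_zero]
  obtain ⟨q, hq, hqle⟩ := Ideal.exists_minimalPrimes_le hIle
  have key := hΨq q hq
    (fun h => by
      have h1 : ev ((aeval (UU k σ e) GP).coeff a) = 0 := hqle h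
      rw [← hcoef, hev, hp, Polynomial.coeff_C_mul_X_pow, if_pos rfl] at h1
      exact hc h1)
    (by
      obtain ⟨i, hi⟩ := hpe
      refine ⟨i, fun h => hi ?_⟩
      have h1 : ev ((UU k σ e i).coeff e) = 0 := hqle h
      rwa [← hcoef, hU] at h1)
    (by
      obtain ⟨i, hi⟩ := hp0
      refine ⟨i, fun h => hi ?_⟩
      have h1 : ev ((UU k σ e i).coeff 0) = 0 := hqle h
      rwa [← hcoef, hU] at h1)
  have hzero : aeval (lin c p) (Ψ q) = 0 := by
    rw [← hevl]
    ext n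
    rw [hcoef, Polynomial.coeff_zero]
    exact hqle (key n)
  rw [map_prod]
  exact Finset.prod_eq_zero (hfin.mem_toFinset.2 hq) hzero

end Pool.Agent.H64.SF
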